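import Pool.Agent.W837.GB.Defs

set_option autoImplicit false
open MeasureTheory ProbabilityTheory Filter Topology
open scoped NNReal Matrix ComplexOrder

namespace Pool.Agent.W67.GB
open Pool.Agent.W837.GB

lemma cheb {Ω : Type*} [MeasurableSpace Ω] (μ : Measure Ω) [IsProbabilityMeasure μ]
    (f : Ω → ℝ) (E V t : ℝ) (S : Set Ω) (ht : 0 < t)
    (hint : Integrable (fun x => (f x - E) ^ 2) μ) (hV : ∫ x, (f x - E) ^ 2 ∂μ ≤ V)
    (hS : ∀ x ∈ S, t ≤ |f x - E|) : μ.real S ≤ V / t ^ 2 := by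
  have h1 := mul_meas_ge_le_integral_of_nonneg (μ := μ) (f := fun x => (f x - E) ^ 2)
    (ae_of_all _ fun x => sq_nonneg _) hint (t ^ 2)
  have h2 : μ.real S ≤ μ.real {x | t ^ 2 ≤ (f x - E) ^ 2} := by
    refine measureReal_mono ?_ (measure_ne_top _ _)
    · intro x hx
      have h3 := hS x hx
      show t ^ 2 ≤ (f x - E) ^ 2
      rw [← sq_abs (f x - E)]
      exact pow_le_pow_left₀ ht.le h3 2
  rw [le_div_iff₀ (by positivity)]
  calc μ.real S * t ^ 2 ≤ μ.real {x | t ^ 2 ≤ (f x - E) ^ 2} * t ^ 2 :=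
        mul_le_mul_of_nonneg_right h2 (by positivity)
    _ = t ^ 2 * μ.real {x | t ^ 2 ≤ (f x - E) ^ 2} := mul_comm _ _
    _ ≤ _ := h1.trans hV

lemma dl_pos (N : ℕ) (hN : 1 ≤ N) : 0 < dl N := by
  unfold dl
  have : (0 : ℝ) < N := by exact_mod_cast hN
  positivity

lemma dl_le_one (N : ℕ) (hN : 1 ≤ N) : dl N ≤ 1 := by
  unfold dl
  apply Real.rpow_le_one_of_one_le_of_nonpos
  · exact_mod_cast hN
  · norm_num

lemma dl_inv_pow (N : ℕ) (k : ℕ) : (dl N)⁻¹ ^ k = (N : ℝ) ^ ((k : ℝ) / 20) := by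
  unfold dl
  rw [Real.rpow_neg (Nat.cast_nonneg N), inv_inv, ← Real.rpow_natCast,
    ← Real.rpow_mul (Nat.cast_nonneg N)]
  congr 1
  ring

lemma dl_bd1 (N : ℕ) (hN : 1 ≤ N) (k : ℕ) (hk : k ≤ 20) :
    (dl N)⁻¹ ^ k / (N : ℝ) ^ 2 ≤ 1 / N := by
  have hN1 : (1 : ℝ) ≤ N := by exact_mod_cast hN
  have hN0 : (0 : ℝ) < N := by linarith
  rw [dl_inv_pow]
  have h1 : (N : ℝ) ^ ((k : ℝ) / 20) ≤ N := by
    calc (N : ℝ) ^ ((k : ℝ) / 20) ≤ (N : ℝ) ^ (1 : ℝ) := by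
          apply Real.rpow_le_rpow_of_exponent_le hN1
          have : (k : ℝ) ≤ 20 := by exact_mod_cast hk
          linarith
      _ = N := Real.rpow_one _
  rw [div_le_div_iff₀ (by positivity) hN0]
  nlinarith

lemma dl_bd2 (N : ℕ) (hN : 1 ≤ N) (k : ℕ) (hk : k ≤ 10) (C : ℝ) (hC : 0 ≤ C) :
    C / ((N : ℝ) ^ 2 * dl N ^ k) ≤ C * rt N := by
  have hN1 : (1 : ℝ) ≤ N := by exact_mod_cast hN
  have hN0 : (0 : ℝ) < N := by linarith
  have h1 : C / ((N : ℝ) ^ 2 * dl N ^ k) = C * ((N : ℝ) ^ (-(2 : ℝ)) * (dl N)⁻¹ ^ k) := by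
    rw [Real.rpow_neg hN0.le, Real.rpow_ofNat, inv_pow]
    field_simp
  rw [h1, dl_inv_pow, ← Real.rpow_add hN0]
  apply mul_le_mul_of_nonneg_left _ hC
  unfold rt
  apply Real.rpow_le_rpow_of_exponent_le hN1
  have : (k : ℝ) ≤ 10 := by exact_mod_cast hk
  linarith

lemma rt_pos (N : ℕ) (hN : 1 ≤ N) : 0 < rt N := by
  unfold rt
  have : (0 : ℝ) < N := by exact_mod_cast hN
  positivity

lemma rt_anti {N M : ℕ} (hN : 1 ≤ N) (h : N ≤ M) : rt M ≤ rt N := by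
  unfold rt
  have h0 : (0 : ℝ) < N := by exact_mod_cast hN
  apply Real.rpow_le_rpow_of_nonpos h0 (by exact_mod_cast h) (by norm_num)

/-- from eventual bounds to all `N` -/
lemma from_eventually (p : ℕ → ℝ) (hp : ∀ N, p N ≤ 1) (C : ℝ) (hC : 0 ≤ C) (N0 : ℕ)
    (h : ∀ N, 1 ≤ N → N0 ≤ N → p N ≤ C * rt N) :
    ∃ C' : ℝ, 0 ≤ C' ∧ ∀ N : ℕ, 1 ≤ N → p N ≤ C' * rt N := by
  have h1 : 0 < rt (N0 + 1) := rt_pos _ (by omega)
  refine ⟨C + (rt (N0 + 1))⁻¹, by positivity, ?_⟩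
  intro N hN
  have h2 := rt_pos N hN
  by_cases h3 : N0 ≤ N
  · have h4 := h N hN h3
    have h5 : 0 ≤ (rt (N0 + 1))⁻¹ * rt N := by positivity
    linarith
  · have h4 : rt (N0 + 1) ≤ rt N := rt_anti hN (by omega)
    have h5 : 1 ≤ (rt (N0 + 1))⁻¹ * rt N := by
      rw [inv_mul_eq_div, le_div_iff₀ h1]
      linarith
    have h6 := hp N
    have h7 : 0 ≤ C * rt N := by positivity
    linarith

instance gam_prob (ι : Type) [Fintype ι] : IsProbabilityMeasure (gam ι) := by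
  unfold gam
  infer_instance

lemma ms_le_one (δ : ℝ) (hδ : 0 < δ) : ms δ ≤ 1 := by
  unfold ms
  have : Real.sqrt (δ ^ 2 + 4) ≤ δ + 2 := by
    rw [Real.sqrt_le_left (by linarith)]
    nlinarith
  linarith

theorem bulk (h1 : S_GMEAN) (h2 : S_GVAR) (h3 : S_LMEAN) (h4 : S_LVAR) : S_BULK := by
  intro n m a hm hds
  have hdl0 : Tendsto dl atTop (𝓝 0) := by
    have := (tendsto_rpow_neg_atTop (show (0 : ℝ) < 1 / 20 by norm_num)).comp
      tendsto_natCast_atTop_atTop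
    exact this
  have hN0 : Tendsto (fun N : ℕ => 1 / (N : ℝ)) atTop (𝓝 0) := tendsto_one_div_atTop_nhds_zero_nat
  constructor
  · intro ε hε
    obtain ⟨C1, hC1, hmean⟩ := h3 n m a hm hds
    obtain ⟨C2, hC2, hvar⟩ := h4 n m a hm
    have hlim : Tendsto (fun N : ℕ => C1 * (dl N + 1 / (N : ℝ))) atTop (𝓝 0) := by
      simpa using (hdl0.add hN0).const_mul C1
    obtain ⟨N0, hN0'⟩ := eventually_atTop.1 (hlim.eventually (ge_mem_nhds (half_pos hε)))
    apply from_eventually _ (fun N => measureReal_le_one) (C2 * (4 / ε ^ 2)) (by positivity) N0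
    intro N hN hNN
    have hd := dl_pos N hN
    have hb := hmean N (dl N) hN hd (dl_le_one N hN)
    obtain ⟨-, hv1, hv2⟩ := hvar N (dl N) hN hd
    have hb1 := dl_bd1 N hN 6 (by norm_num)
    have hb2 : |(∫ g, ld (AN a N g) (dl N) ∂(gam _)) / (m * N) + 1| ≤ ε / 2 := by
      refine hb.trans (le_trans ?_ (hN0' N hNN))
      apply mul_le_mul_of_nonneg_left _ hC1
      linarith
    refine (cheb _ (fun g => ld (AN a N g) (dl N) / (m * N)) _ _ (ε / 2) _ (half_pos hε) hv1 hv2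
      ?_).trans ?_
    · intro g hg
      have hg' : ε ≤ |ld (AN a N g) (dl N) / (m * N) + 1| := hg
      rw [abs_le] at hb2
      rcases le_abs.1 hg' with h | h
      · refine le_trans ?_ (le_abs_self _)
        linarith
      · refine le_trans ?_ (neg_le_abs _)
        linarith
    · have hb3 := dl_bd2 N hN 2 (by norm_num) C2 hC2
      have e1 : C2 / ((N : ℝ) ^ 2 * dl N ^ 2) / (ε / 2) ^ 2 =
        (4 / ε ^ 2) * (C2 / ((N : ℝ) ^ 2 * dl N ^ 2)) := by
        field_simp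
        ring
      rw [e1]
      calc _ ≤ (4 / ε ^ 2) * (C2 * rt N) := mul_le_mul_of_nonneg_left hb3 (by positivity)
        _ = _ := by ring
  · obtain ⟨C1, hC1, hmean⟩ := h1 n m a hm hds
    obtain ⟨C2, hC2, hvar⟩ := h2 n m a hm
    have hlim : Tendsto (fun N : ℕ => C1 * (2 * (1 / (N : ℝ)))) atTop (𝓝 0) := by
      simpa using (hN0.const_mul 2).const_mul C1
    obtain ⟨N0, hN0'⟩ := eventually_atTop.1 (hlim.eventually (ge_mem_nhds (show (0 : ℝ) < 1 / 2 by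
      norm_num)))
    apply from_eventually _ (fun N => measureReal_le_one) (C2 * 4) (by positivity) N0
    intro N hN hNN
    have hd := dl_pos N hN
    obtain ⟨-, hb⟩ := hmean N (dl N) hN hd
    obtain ⟨hv1, hv2⟩ := hvar N (dl N) hN hd
    have hb1 := dl_bd1 N hN 5 (by norm_num)
    have hb1' := dl_bd1 N hN 7 (by norm_num)
    have hb2 : |(∫ g, tg (AN a N g) (dl N) ∂(gam _)) / (m * N) - ms (dl N)| ≤ 1 / 2 := by
      refine hb.trans (le_trans ?_ (hN0' N hNN))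
      rw [div_mul_eq_mul_div, mul_div_assoc]
      apply mul_le_mul_of_nonneg_left _ hC1
      rw [add_div]
      linarith
    refine (cheb _ (fun g => tg (AN a N g) (dl N) / (m * N)) _ _ (1 / 2) _ (by norm_num) hv1 hv2
      ?_).trans ?_
    · intro g hg
      have hg' : 2 ≤ tg (AN a N g) (dl N) / (m * N) := hg
      have hms := ms_le_one (dl N) hd
      rw [abs_le] at hb2
      refine le_trans ?_ (le_abs_self _)
      linarith
    · have hb3 := dl_bd2 N hN 4 (by norm_num) C2 hC2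
      have e1 : C2 / ((N : ℝ) ^ 2 * dl N ^ 4) / (1 / 2) ^ 2 =
        4 * (C2 / ((N : ℝ) ^ 2 * dl N ^ 4)) := by
        field_simp
        ring
      rw [e1]
      linarith

end Pool.Agent.W67.GB
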