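import Pool.Agent.W837.GB.Defs

set_option autoImplicit false
open MeasureTheory ProbabilityTheory Filter Topology
open scoped NNReal Matrix ComplexOrder

namespace Pool.Agent.W67.GB
open Pool.Agent.W837.GB

lemma AN_apply {n : ℕ} {ν : Type} (a : Fin n → Matrix ν ν ℂ) (N : ℕ)
    (g : Fin n × Fin N × Fin N → ℝ) (x y : ν × Fin N) :
    AN a N g x y = (((Real.sqrt N)⁻¹ : ℝ) : ℂ) *
      ∑ j, a j x.1 y.1 * Hm (fun k l => g (j, k, l)) x.2 y.2 := by
  simp [AN, W, Matrix.smul_apply, Matrix.sum_apply, Matrix.kronecker, Matrix.kroneckerMap_apply]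

theorem dnm : S_DNM := by
  intro n p q a' c a'' m e a hp hq ha N g hN
  have hm : m = p + q := by
    have h := Fintype.card_congr e
    simp at h
    omega
  let E : (Fin p × Fin N) ⊕ (Fin q × Fin N) ≃ Fin m × Fin N :=
    (Equiv.sumProdDistrib (Fin p) (Fin q) (Fin N)).symm.trans (Equiv.prodCongr e (Equiv.refl _))
  have hEl : ∀ x : Fin p × Fin N, E (Sum.inl x) = (e (Sum.inl x.1), x.2) := by
    intro x
    rfl
  have hEr : ∀ x : Fin q × Fin N, E (Sum.inr x) = (e (Sum.inr x.1), x.2) := by
    intro x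
    rfl
  have haa : ∀ j x y, a j (e x) (e y) = (Matrix.fromBlocks (a' j) (c j) 0 (a'' j)) x y := by
    intro j x y
    rw [ha j]
    simp [Matrix.reindex_apply, Matrix.submatrix_apply]
  have hsub : (AN a N g).submatrix E E = Matrix.fromBlocks (AN a' N g)
      ((AN a N g).submatrix (fun x => E (Sum.inl x)) (fun y => E (Sum.inr y))) 0 (AN a'' N g) := by
    ext x y
    rcases x with x | x <;> rcases y with y | y
    · simp only [Matrix.submatrix_apply, Matrix.fromBlocks_apply₁₁, hEl, AN_apply, haa]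
    · simp only [Matrix.submatrix_apply, Matrix.fromBlocks_apply₁₂]
    · simp only [Matrix.submatrix_apply, Matrix.fromBlocks_apply₂₁, hEl, hEr, AN_apply, haa]
      simp
    · simp only [Matrix.submatrix_apply, Matrix.fromBlocks_apply₂₂, hEr, AN_apply, haa]
  have hdet : (AN a N g).det = (AN a' N g).det * (AN a'' N g).det := by
    rw [← Matrix.det_submatrix_equiv_self E (AN a N g), hsub, Matrix.det_fromBlocks_zero₂₁]
  have hpos : (0 : ℝ) < m := by
    have : 0 < m := by omega
    exact_mod_cast this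
  have hp' : (0 : ℝ) < p := by exact_mod_cast hp
  have hq' : (0 : ℝ) < q := by exact_mod_cast hq
  have hN' : (0 : ℝ) < N := by exact_mod_cast hN
  unfold DN
  rw [hdet, norm_mul, Real.mul_rpow (norm_nonneg _) (norm_nonneg _),
    ← Real.rpow_mul (norm_nonneg _), ← Real.rpow_mul (norm_nonneg _)]
  congr 2
  · field_simp
  · field_simp

end Pool.Agent.W67.GB
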