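import Pool.Agent.W837.GB.Defs

set_option autoImplicit false
open MeasureTheory ProbabilityTheory Filter Topology
open scoped NNReal Matrix ComplexOrder

namespace Pool.Agent.W67.GB
open Pool.Agent.W837.GB

/-- normalised determinant as a function of the family of matrices -/
noncomputable def FF {n m : ℕ} (A : Fin n → Matrix (Fin m) (Fin m) ℂ) (N : ℕ)
    (Y : Fin n → Fin N → Fin N → ℂ) : ℝ :=
  ‖(∑ i, Matrix.kronecker (A i) (Matrix.of (Y i))).det‖ ^ (1 / ((m : ℝ) * (N : ℝ)))

lemma measurable_FF {n m : ℕ} (A : Fin n → Matrix (Fin m) (Fin m) ℂ) (N : ℕ) :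
    Measurable (FF A N) := by
  apply Continuous.measurable
  unfold FF
  apply Continuous.rpow_const
  · apply Continuous.norm
    apply Continuous.matrix_det
    apply continuous_matrix
    intro x y
    simp only [Matrix.sum_apply, Matrix.kronecker, Matrix.kroneckerMap_apply, Matrix.of_apply]
    fun_prop
  · intro x
    right
    positivity

/-- the Gaussian family -/
noncomputable def GG {n : ℕ} (N : ℕ) (g : Fin n × Fin N × Fin N → ℝ) :
    Fin n → Fin N → Fin N → ℂ :=
  fun i k l => (((Real.sqrt N)⁻¹ : ℝ) : ℂ) * Hm (fun x y => g (i, x, y)) k l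

lemma measurable_GG {n : ℕ} (N : ℕ) : Measurable (GG (n := n) N) := by
  apply Continuous.measurable
  unfold GG Hm
  fun_prop

lemma FF_GG {n m : ℕ} (A : Fin n → Matrix (Fin m) (Fin m) ℂ) (N : ℕ)
    (g : Fin n × Fin N × Fin N → ℝ) : FF A N (GG N g) = DN A N g := by
  unfold FF DN
  congr 3
  ext x y
  simp only [AN, W, Matrix.smul_apply, Matrix.sum_apply, Matrix.kronecker,
    Matrix.kroneckerMap_apply, Matrix.of_apply, GG, smul_eq_mul, Finset.mul_sum]
  apply Finset.sum_congr rfl
  intro i _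
  ring

theorem fin (h1 : S_GEN) (h2 : S_TRANS) (h3 : S_EXP) (h4 : S_RND) : Main := by
  intro m n hm a hrk Ω _ P _ X hherm hind hdiag hoff
  set A : Fin n → Matrix (Fin m) (Fin m) ℂ := fun i => (a i).map (Int.cast : ℤ → ℂ) with hA
  have hRND : RND A := fun b hb => hrk b hb
  obtain ⟨hcap, hgood⟩ := h1 n m A hm (h4 n m A hRND)
  have hexp := h3 n m A _ hm hgood
  set L : ℝ := cap A ^ (1 / (2 * (m : ℝ))) * Real.exp (-1 / 2) with hL
  have hLpos : 0 < L := by positivity
  -- transfer
  have hmap : ∀ N : ℕ, 1 ≤ N →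
      AEMeasurable (fun ω => FF A N (fun i => X N i ω)) P ∧
      P.map (fun ω => FF A N (fun i => X N i ω)) = (gam (Fin n × Fin N × Fin N)).map
        (fun g => DN A N g) := by
    intro N hN
    obtain ⟨hae, hm2⟩ := h2 n N Ω P (X N) hN (hherm N) (hind N) (hdiag N) (hoff N)
    have hae' : AEMeasurable (fun ω => FF A N (fun i => X N i ω)) P :=
      (measurable_FF A N).comp_aemeasurable hae
    refine ⟨hae', ?_⟩
    have e1 : P.map (fun ω => FF A N (fun i => X N i ω)) =
        (P.map (fun ω (i : Fin n) (k l : Fin N) => X N i ω k l)).map (FF A N) := by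
      rw [AEMeasurable.map_map_of_aemeasurable (measurable_FF A N).aemeasurable hae]
      rfl
    have e2 : (gam (Fin n × Fin N × Fin N)).map (fun g => DN A N g) =
        ((gam (Fin n × Fin N × Fin N)).map (GG N)).map (FF A N) := by
      rw [Measure.map_map (measurable_FF A N) (measurable_GG N)]
      congr 1
      funext g
      exact (FF_GG A N g).symm
    rw [e1, e2, hm2]
    rfl
  have hDNae : ∀ N : ℕ, AEMeasurable (fun g => DN A N g) (gam (Fin n × Fin N × Fin N)) := by
    intro N
    have : (fun g => DN A N g) = (FF A N) ∘ (GG N) := by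
      funext g
      exact (FF_GG A N g).symm
    rw [this]
    exact ((measurable_FF A N).comp (measurable_GG N)).aemeasurable
  have hset : ∀ N : ℕ, 1 ≤ N → ∀ ε : ℝ,
      P {ω | ε ≤ |FF A N (fun i => X N i ω) - L|} =
        (gam (Fin n × Fin N × Fin N)) {g | ε ≤ |DN A N g - L|} := by
    intro N hN ε
    obtain ⟨hae, hm2⟩ := hmap N hN
    have hS : MeasurableSet {x : ℝ | ε ≤ |x - L|} := by
      apply IsClosed.measurableSet
      exact isClosed_le continuous_const (by fun_prop)
    have e1 := Measure.map_apply_of_aemeasurable hae hS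
    have e2 := Measure.map_apply_of_aemeasurable (hDNae N) hS
    rw [hm2, e2] at e1
    exact e1.symm
  have hgp : ∀ N : ℕ, IsProbabilityMeasure (gam (Fin n × Fin N × Fin N)) := by
    intro N
    unfold gam
    infer_instance
  have hBC : ∀ ε : ℝ, 0 < ε → ∀ᵐ ω ∂P, ∀ᶠ N : ℕ in atTop,
      |FF A N (fun i => X N i ω) - L| < ε := by
    intro ε hε
    obtain ⟨C, hC⟩ := hgood ε hε
    have hsum : Summable (fun N : ℕ => C * rt (N + 1)) := by
      apply Summable.mul_left
      have : Summable (fun N : ℕ => (N : ℝ) ^ (-(3 / 2 : ℝ))) := by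
        rw [Real.summable_nat_rpow]
        norm_num
      have h' := (summable_nat_add_iff 1).2 this
      exact h'
    have hfin : (∑' N : ℕ, P {ω | ε ≤ |FF A (N + 1) (fun i => X (N + 1) i ω) - L|}) ≠ ⊤ := by
      apply ne_top_of_le_ne_top hsum.tsum_ofReal_ne_top
      apply ENNReal.tsum_le_tsum
      intro N
      rw [hset (N + 1) (by omega) ε]
      have h5 := hC (N + 1) (by omega)
      have := hgp (N + 1)
      have h6 : (gam (Fin n × Fin (N + 1) × Fin (N + 1))) {g | ε ≤ |DN A (N + 1) g - L|} =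
        ENNReal.ofReal ((gam (Fin n × Fin (N + 1) × Fin (N + 1))).real
          {g | ε ≤ |DN A (N + 1) g - L|}) := by
        rw [Measure.real, ENNReal.ofReal_toReal]
        exact measure_ne_top _ _
      rw [h6]
      exact ENNReal.ofReal_le_ofReal h5
    filter_upwards [ae_eventually_notMem hfin] with ω hω
    obtain ⟨N0, hN0⟩ := eventually_atTop.1 hω
    refine eventually_atTop.2 ⟨N0 + 1, ?_⟩
    intro N hN
    obtain ⟨M, rfl⟩ : ∃ M, N = M + 1 := ⟨N - 1, by omega⟩
    have h7 := hN0 M (by omega)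
    simpa using h7
  have hall : ∀ᵐ ω ∂P, ∀ k : ℕ, ∀ᶠ N : ℕ in atTop,
      |FF A N (fun i => X N i ω) - L| < 1 / ((k : ℝ) + 1) := by
    rw [ae_all_iff]
    intro k
    exact hBC _ (by positivity)
  have htend : ∀ᵐ ω ∂P, Tendsto (fun N : ℕ => FF A N (fun i => X N i ω)) atTop (𝓝 L) := by
    filter_upwards [hall] with ω hω
    rw [Metric.tendsto_atTop']
    intro ε hε
    obtain ⟨k, hk⟩ := exists_nat_one_div_lt hε
    obtain ⟨N0, hN0⟩ := eventually_atTop.1 (hω k)
    refine ⟨N0, fun N hN => ?_⟩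
    rw [Real.dist_eq]
    exact (hN0 N hN.le).trans hk
  have hFFeq : ∀ (N : ℕ) (ω : Ω), FF A N (fun i => X N i ω) =
      ‖(∑ i, Matrix.kronecker ((a i).map (Int.cast : ℤ → ℂ)) (X N i ω)).det‖
              ^ (1 / ((m : ℝ) * (N : ℝ))) := by
    intro N ω
    rfl
  have hmpos : (0 : ℝ) < m := by exact_mod_cast hm
  refine ⟨?_, ?_, ?_⟩
  · filter_upwards [htend] with ω hω
    have h8 := hω.eventually (lt_mem_nhds hLpos)
    filter_upwards [h8, eventually_ge_atTop 1] with N hN hN1
    rw [isUnit_iff_ne_zero]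
    intro h0
    rw [hFFeq, h0, norm_zero, Real.zero_rpow] at hN
    · exact lt_irrefl _ hN
    · have : (0 : ℝ) < N := by exact_mod_cast hN1
      positivity
  · exact htend
  · refine Tendsto.congr' ?_ hexp
    filter_upwards [eventually_ge_atTop 1] with N hN
    obtain ⟨hae, hm2⟩ := hmap N hN
    have e1 : ∫ x, x ∂(P.map (fun ω => FF A N (fun i => X N i ω))) =
        ∫ ω, FF A N (fun i => X N i ω) ∂P :=
      integral_map hae aestronglyMeasurable_id
    have e2 : ∫ x, x ∂((gam (Fin n × Fin N × Fin N)).map (fun g => DN A N g)) =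
        ∫ g, DN A N g ∂(gam (Fin n × Fin N × Fin N)) :=
      integral_map (hDNae N) aestronglyMeasurable_id
    rw [← e2, ← hm2, e1]
    rfl

end Pool.Agent.W67.GB
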